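import Mathlib
import Pool.Agent.X126.AvB

set_option autoImplicit false

open Pool.Agent.X126.Av

namespace Pool.Agent.Results.MP_fb4947_gt.WedgesRealized

/-- Positive answer to Q1: every finite wedge of spheres (of arbitrary dimensions `d i ≥ 0`, the empty wedge being
a point) is homotopy equivalent to the geometric realisation of the avalanche complex of some starting
configuration `c₀` on some finite weakly connected digraph without loops (arcs are a relation `E`, so there are no
multiple arcs). -/
theorem result {m : ℕ} (d : Fin m → ℕ) :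
    ∃ (V : Type) (_ : Fintype V) (E : V → V → Prop) (c₀ : V → ℕ),
      (∀ v, ¬ E v v) ∧ (SimpleGraph.fromRel E).Connected ∧
      Nonempty (ContinuousMap.HomotopyEquiv (Wedge d) (realization (avalanche E c₀))) := by
  classical
  set D : ℕ := Finset.univ.sup d with hD
  have hdD : ∀ i, d i ≤ D := fun i => Finset.le_sup (Finset.mem_univ i)
  set T : Type := Option (Fin m × (Fin (D + 1) → Bool)) with hT
  set M : ℕ := Fintype.card T with hM
  set e : T ≃ Fin M := Fintype.equivFin T with he
  set F : ℕ → Finset (Vx m D) := fun t => if h : t < M then fac d D (e.symm ⟨t, h⟩) else ∅ with hF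
  have hF0 : ∀ t, M ≤ t → F t = ∅ := by
    intro t ht
    simp only [hF]
    rw [dif_neg (by omega)]
  have hFne : ∀ s : Fin M, ∃ x, x ∈ F s := by
    intro s
    have h1 : F s = fac d D (e.symm s) := by
      simp only [hF]
      rw [dif_pos s.2]
    rw [h1]
    rcases e.symm s with _ | ⟨i, ε⟩
    · exact ⟨none, by simp [fac]⟩
    · refine ⟨io D i 0 (ε 0), ?_⟩
      simp only [fac, Finset.mem_image, Finset.mem_filter, Finset.mem_univ, true_and]
      exact ⟨0, by simp, rfl⟩
  choose p hp using hFne
  have hK : KX (M := M) F = KK d D := by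
    ext y
    constructor
    · rintro ⟨h1, t, ht, h2⟩
      refine ⟨h1, e.symm ⟨t, ht⟩, fun x hx => ?_⟩
      have := h2 x hx
      simp only [hF] at this
      rwa [dif_pos ht] at this
    · rintro ⟨h1, q, h2⟩
      refine ⟨h1, e q, (e q).2, fun x hx => ?_⟩
      simp only [hF]
      rw [dif_pos (e q).2]
      simpa using h2 x hx
  obtain ⟨h⟩ := hequiv F p hF0 hp
  refine ⟨Vx m D ⊕ Option (Fin M), inferInstance, Ed (M := M) F, c0 F, Ed_irrefl F, Ed_conn F, ?_⟩
  have h2 : Wedge d ≃ₜ KX (M := M) F := (homeo d D hdD).trans (Homeomorph.setCongr hK.symm)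
  exact ⟨h2.toHomotopyEquiv.trans h⟩

end Pool.Agent.Results.MP_fb4947_gt.WedgesRealized
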